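import Pool.Agent.K.MP_0f752e_al.C0

set_option autoImplicit false

namespace Pool.Agent.Results.MP_0f752e_al.FittingFormation
open Pool.Agent.P.MP_0f752e_al

theorem resid_eq (X : Type) [Group X] [Finite X] :
    (⨅ (N : Subgroup X) (_ : N.Normal) (_ : Finite (X ⧸ N) ∧ FF (X ⧸ N)), N) = resid X := by
  refine le_antisymm ?_ ?_
  · refine le_iInf fun H => le_iInf fun _ => le_iInf fun hH => le_iInf fun f => le_iInf fun hf => ?_
    have : Finite H := Finite.of_surjective f hf
    have e := QuotientGroup.quotientKerEquivOfSurjective f hf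
    exact iInf_le_of_le f.ker (iInf_le_of_le inferInstance (iInf_le_of_le
      ⟨inferInstance, ff_quot hH e.symm.toMonoidHom e.symm.surjective⟩ le_rfl))
  · refine le_iInf fun N => le_iInf fun _ => le_iInf fun hN => ?_
    exact iInf_le_of_le (X ⧸ N) (iInf_le_of_le inferInstance (iInf_le_of_le hN.2
      (iInf_le_of_le (QuotientGroup.mk' N) (iInf_le_of_le (QuotientGroup.mk'_surjective N)
        (QuotientGroup.ker_mk' N).le))))

/-- A Fitting formation, with every clause of the definition, without the Wielandt property for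
residuals. -/
theorem result :
    ∃ F : (H : Type) → [Group H] → Prop,
      (∀ (G : Type) [Group G], F G → Finite G) ∧
      (∀ (G H : Type) [Group G] [Group H], Nonempty (G ≃* H) → F G → F H) ∧
      F Unit ∧
      (∀ (G : Type) [Group G] (N : Subgroup G) [N.Normal], F G → F (G ⧸ N)) ∧
      (∀ (G : Type) [Group G] (M N : Subgroup G) [M.Normal] [N.Normal],
        F (G ⧸ M) → F (G ⧸ N) → F (G ⧸ (M ⊓ N))) ∧
      (∀ (G : Type) [Group G] (N : Subgroup G) [N.Normal], F G → F N) ∧
      (∀ (G : Type) [Group G] (M N : Subgroup G) [M.Normal] [N.Normal],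
        F M → F N → F ↥(M ⊔ N)) ∧
      ∃ (G : Type) (_ : Group G) (_ : Finite G) (U V : Subgroup G),
        U ⊔ V = ⊤ ∧ U.IsSubnormal ∧ V.IsSubnormal ∧
        (⨅ (N : Subgroup G) (_ : N.Normal) (_ : F (G ⧸ N)), N) ≠
          (⨅ (N : Subgroup U) (_ : N.Normal) (_ : F (U ⧸ N)), N).map U.subtype ⊔
          (⨅ (N : Subgroup V) (_ : N.Normal) (_ : F (V ⧸ N)), N).map V.subtype := by
  refine ⟨fun H _ => Finite H ∧ FF H, fun _ _ h => h.1, ?_, ⟨inferInstance, ff_trivial⟩, ?_, ?_, ?_,
    ?_, G0, inferInstance, inferInstance, (Rf 1).comap p3, (Rf 0).comap p3, UV_sup,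
    (sn_Rf 1).comap p3, (sn_Rf 0).comap p3, ?_⟩
  · rintro G H _ _ ⟨e⟩ ⟨h1, h2⟩
    exact ⟨Finite.of_equiv G e.toEquiv, ff_quot h2 e.toMonoidHom e.surjective⟩
  · rintro G _ N _ ⟨h1, h2⟩
    exact ⟨inferInstance, ff_quot h2 (QuotientGroup.mk' N) (QuotientGroup.mk'_surjective N)⟩
  · rintro G _ M N _ _ ⟨a1, a2⟩ ⟨b1, b2⟩
    let f : G ⧸ (M ⊓ N) →* G ⧸ M := QuotientGroup.map _ _ (MonoidHom.id G) (by simp)
    let g : G ⧸ (M ⊓ N) →* G ⧸ N := QuotientGroup.map _ _ (MonoidHom.id G) (by simp)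
    have hk : f.ker ⊓ g.ker = ⊥ := by
      rw [eq_bot_iff]
      intro x hx
      obtain ⟨x, rfl⟩ := QuotientGroup.mk_surjective x
      have h1 : ((x : G) : G ⧸ M) = 1 := hx.1
      have h2 : ((x : G) : G ⧸ N) = 1 := hx.2
      rw [QuotientGroup.eq_one_iff] at h1 h2
      exact Subgroup.mem_bot.2 ((QuotientGroup.eq_one_iff x).2 ⟨h1, h2⟩)
    have : Finite (G ⧸ (M ⊓ N)) := by
      refine Finite.of_injective (f.prod g) ?_
      rw [← MonoidHom.ker_eq_bot_iff, MonoidHom.ker_prod, hk]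
    refine ⟨this, ff_subdirect a2 b2 f g (fun y => ?_) (fun y => ?_) hk⟩
    · obtain ⟨y, rfl⟩ := QuotientGroup.mk_surjective y
      exact ⟨(y : G ⧸ (M ⊓ N)), rfl⟩
    · obtain ⟨y, rfl⟩ := QuotientGroup.mk_surjective y
      exact ⟨(y : G ⧸ (M ⊓ N)), rfl⟩
  · rintro G _ N hN ⟨h1, h2⟩
    exact ⟨inferInstance, ff_normal h2 N hN⟩
  · rintro G _ M N hM hN ⟨a1, a2⟩ ⟨b1, b2⟩
    have : Finite ↥(M ⊔ N) := by
      have h : ((M ⊔ N : Subgroup G) : Set G).Finite := by
        rw [Subgroup.mul_normal]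
        exact Set.Finite.mul (Set.toFinite _) (Set.toFinite _)
      exact h
    have eM := (Subgroup.subgroupOfEquivOfLe (le_sup_left : M ≤ M ⊔ N)).symm
    have eN := (Subgroup.subgroupOfEquivOfLe (le_sup_right : N ≤ M ⊔ N)).symm
    refine ⟨this, ff_product (M.subgroupOf (M ⊔ N)) (N.subgroupOf (M ⊔ N)) inferInstance
      inferInstance (ff_quot a2 eM.toMonoidHom eM.surjective)
      (ff_quot b2 eN.toMonoidHom eN.surjective) ?_⟩
    rw [← Subgroup.subgroupOf_sup le_sup_left le_sup_right, Subgroup.subgroupOf_self]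
  · rw [resid_eq, resid_eq, resid_eq]
    intro e
    refine counter ?_
    rw [← e]
    have key : ∀ W : Subgroup G0, W = ⊤ → (resid W).map W.subtype = resid G0 := by
      rintro W rfl
      refine le_antisymm ?_ ?_
      · refine le_iInf fun H => le_iInf fun _ => le_iInf fun hH => le_iInf fun f =>
          le_iInf fun hf => ?_
        rw [Subgroup.map_le_iff_le_comap, MonoidHom.comap_ker]
        exact iInf_le_of_le H (iInf_le_of_le inferInstance (iInf_le_of_le hH
          (iInf_le_of_le (f.comp (⊤ : Subgroup G0).subtype) (iInf_le_of_le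
            (fun y => by
              obtain ⟨x, rfl⟩ := hf y
              exact ⟨⟨x, trivial⟩, rfl⟩) le_rfl))))
      · intro x hx
        refine ⟨⟨x, trivial⟩, ?_, rfl⟩
        simp only [resid, SetLike.mem_coe, Subgroup.mem_iInf] at hx ⊢
        intro H _ hH f hf
        exact hx H _ hH (f.comp Subgroup.topEquiv.symm.toMonoidHom)
          (fun y => by
            obtain ⟨z, rfl⟩ := hf y
            exact ⟨z.1, rfl⟩)
    exact key _ UV_sup

end Pool.Agent.Results.MP_0f752e_al.FittingFormation
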